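import Mathlib

/-! Trees, special trees and the partition relation for chains of a tree. -/

set_option autoImplicit false

universe u

namespace Pool.Agent.H774Z.Tree

/-- `T` is a tree: the set of predecessors of each element is well-ordered. -/
def IsTree (T : Type u) [PartialOrder T] : Prop :=
  ∀ x : T, IsChain (fun a b : T => a ≤ b) (Set.Iio x) ∧
    Set.WellFoundedOn (Set.Iio x) (fun a b : T => a < b)

/-- `T` is `l`-special: some `f : T → l` has `f x ≠ f y` whenever `x < y`. -/
def Special (T : Type u) [PartialOrder T] (l : Cardinal.{u}) : Prop :=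
  ∃ f : T → Ordinal.{u}, (∀ x : T, f x < l.ord) ∧ ∀ x y : T, x < y → f x ≠ f y

/-- `T → (α)²_μ`: for every colouring of the pairs `x < y` with `μ` colours there is a chain of
order type `α` on which the colouring is constant. -/
def Arrow (T : Type u) [PartialOrder T] (α : Ordinal.{u}) (μ : Cardinal.{u}) : Prop :=
  ∀ c : T → T → Ordinal.{u}, (∀ x y : T, c x y < μ.ord) →
    ∃ g : Set.Iio α → T, StrictMono g ∧ ∃ i, ∀ a b : Set.Iio α, a < b → c (g a) (g b) = i

/-- `log κ`: the least cardinal `l` with `κ ≤ 2 ^ l`. -/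
noncomputable def clog (κ : Cardinal.{u}) : Cardinal.{u} := sInf {l | κ ≤ 2 ^ l}

/-- `κ` is weakly compact: uncountable with `κ → (κ)²₂`. -/
def WeaklyCompact (κ : Cardinal.{u}) : Prop :=
  Cardinal.aleph0 < κ ∧ ∀ X : Type u, Cardinal.mk X = κ → ∀ c : X → X → Fin 2,
    (∀ x y : X, c x y = c y x) → ∃ H : Set X, Cardinal.mk H = κ ∧
      ∃ i : Fin 2, ∀ x ∈ H, ∀ y ∈ H, x ≠ y → c x y = i

end Pool.Agent.H774Z.Tree
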