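import Pool.Agent.H774Z.Tree.Defs

/-!
For every regular `κ` there is a tree that is not `κ`-special and has a colouring with countably
many colours without a homogeneous chain of type `κ + 2`. The nodes are subadditive colourings of
initial segments of `κ⁺`.
-/

set_option autoImplicit false

universe u

namespace Pool.Agent.H774Z.Tree

open Cardinal Set

variable {O : Type u} [LinearOrder O] {κ : Cardinal.{u}}

/-- no large homogeneous set whose colour is the value of `h` -/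
def Sm (κ : Cardinal.{u}) (c : O → O → ℕ) (A : Set O) (h : O → ℕ) : Prop :=
  ∀ S ⊆ A, ∀ n, (∀ x ∈ S, ∀ y ∈ S, x < y → c x y = n) → (∀ x ∈ S, h x = n) → #S < κ

theorem Sm.congr {c c' : O → O → ℕ} {A A' : Set O} {h h' : O → ℕ} (H : Sm κ c A h) (hA : A' ⊆ A)
    (hc : ∀ x, ∀ y ∈ A', c' x y = c x y) (hh : ∀ x ∈ A', h' x = h x) : Sm κ c' A' h' :=
  fun S hS n h1 h2 => H S (hS.trans hA) n
    (fun x hx y hy e => (hc x y (hS hy)).symm.trans (h1 x hx y hy e))
    (fun x hx => (hh x (hS hx)).symm.trans (h2 x hx))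

/-- the nodes of the tree -/
@[ext] structure Node (O : Type u) [LinearOrder O] (κ : Cardinal.{u}) where
  top : O
  c : O → O → ℕ
  norm : ∀ x y, ¬ (x < y ∧ y ≤ top) → c x y = 0
  sub : ∀ x y z, x < y → y < z → z ≤ top → c x y ≤ max (c x z) (c y z)
  hom : ∀ z ≤ top, ∀ b < z, Sm κ c (Iio b) (fun x => c x z)

instance : PartialOrder (Node O κ) where
  le s t := s.top ≤ t.top ∧ ∀ x y, y ≤ s.top → s.c x y = t.c x y
  le_refl _ := ⟨le_rfl, fun _ _ _ => rfl⟩
  le_trans _ _ _ h1 h2 := ⟨h1.1.trans h2.1, fun x y hy =>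
    (h1.2 x y hy).trans (h2.2 x y (hy.trans h1.1))⟩
  le_antisymm s t h1 h2 := by
    have e := le_antisymm h1.1 h2.1
    refine Node.ext e ?_
    funext x y
    by_cases hy : y ≤ s.top
    · exact h1.2 x y hy
    · rw [s.norm x y fun h => hy h.2, t.norm x y fun h => hy (e ▸ h.2)]

theorem Node.le_def {s t : Node O κ} :
    s ≤ t ↔ s.top ≤ t.top ∧ ∀ x y, y ≤ s.top → s.c x y = t.c x y := Iff.rfl

theorem Node.lt_iff {s t : Node O κ} : s < t ↔ s ≤ t ∧ s.top < t.top := by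
  constructor
  · intro h
    refine ⟨h.le, lt_of_le_of_ne h.le.1 fun e => h.not_ge ⟨e.ge, fun x y hy => ?_⟩⟩
    exact (h.le.2 x y (e ▸ hy)).symm
  · rintro ⟨h1, h2⟩
    exact lt_of_le_not_ge h1 fun h => absurd h.1 (not_le.2 h2)

theorem isTree [WellFoundedLT O] : IsTree (Node O κ) := by
  intro t
  have key : ∀ a b : Node O κ, a < t → b < t → a.top ≤ b.top → a ≤ b := fun a b ha hb h =>
    ⟨h, fun x y hy => (ha.le.2 x y hy).trans (hb.le.2 x y (hy.trans h)).symm⟩
  refine ⟨fun a ha b hb _ => (le_total a.top b.top).imp (key a b ha hb) (key b a hb ha), ?_⟩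
  have h : WellFounded (fun a b : Node O κ => a < b) :=
    Subrelation.wf (fun h => (Node.lt_iff.1 h).2) (InvImage.wf Node.top wellFounded_lt)
  exact h.wellFoundedOn

/-- a node with the intended colours to the final point -/
structure St (O : Type u) [LinearOrder O] (κ : Cardinal.{u}) where
  t : Node O κ
  h : O → ℕ
  s1 : ∀ x y, x < y → y ≤ t.top → t.c x y ≤ max (h x) (h y)
  s2 : Sm κ t.c (Iic t.top) h

/-- extension of states -/
def St.Le (s s' : St O κ) : Prop := s.t ≤ s'.t ∧ ∀ x ≤ s.t.top, s'.h x = s.h x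

/-- the promise -/
def Resp (A : Set O) (h : O → ℕ) (t : Node O κ) : Prop :=
  ∀ y ≤ t.top, y ∉ A → ∃ m, ∀ x ∈ A, t.c x y ≤ max (h x) m

theorem chain [WellFoundedLT O] (h0 : ℵ₀ ≤ κ) (hO1 : ∀ a : O, #(Iic a) ≤ κ) (hO2 : κ < #O)
    {I : Type u} (s : I → St O κ) (hs : ∀ i j, (s i).Le (s j) ∨ (s j).Le (s i)) (hI : #I ≤ κ) :
    ∃ (v : Node O κ) (H : O → ℕ), (∀ i, (s i).t < v) ∧ (∀ i, ∀ x ≤ (s i).t.top, H x = (s i).h x) ∧
      (∀ x < v.top, ∃ i, x ≤ (s i).t.top) ∧ ∀ x < v.top, v.c x v.top = H x := by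
  classical
  have hne : {d : O | ∀ i, (s i).t.top < d}.Nonempty := by
    by_contra hcon
    have h1 : (univ : Set O) ⊆ ⋃ i, Iic (s i).t.top := by
      intro d _
      by_contra hd
      exact hcon ⟨d, fun i => not_le.1 fun e => hd (mem_iUnion.2 ⟨i, e⟩)⟩
    have h2 := (mk_le_mk_of_subset h1).trans (mk_iUnion_le_sum_mk.trans
      (sum_le_sum _ (fun _ => κ) fun i => hO1 _))
    rw [sum_const', mk_univ] at h2
    exact absurd (h2.trans ((mul_le_mul' hI le_rfl).trans (mul_eq_self h0).le)) (not_le.2 hO2)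
  obtain ⟨d, hd, hd'⟩ := wellFounded_lt.has_min _ hne
  have hlt : ∀ x < d, ∃ i, x ≤ (s i).t.top := by
    intro x hx
    by_contra hcon
    exact hd' x (fun i => not_le.1 fun e => hcon ⟨i, e⟩) hx
  let H : O → ℕ := fun x => if hx : ∃ i, x ≤ (s i).t.top then (s hx.choose).h x else 0
  let C : O → O → ℕ := fun x y => if hy : ∃ i, y ≤ (s i).t.top then (s hy.choose).t.c x y else
    if x < y ∧ y = d then H x else 0
  have hH : ∀ i, ∀ x ≤ (s i).t.top, H x = (s i).h x := by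
    intro i x hx
    have h1 : ∃ i, x ≤ (s i).t.top := ⟨i, hx⟩
    simp only [H, dif_pos h1]
    rcases hs i h1.choose with e | e
    · exact e.2 x hx
    · exact (e.2 x h1.choose_spec).symm
  have hC : ∀ i x, ∀ y ≤ (s i).t.top, C x y = (s i).t.c x y := by
    intro i x y hy
    have h1 : ∃ i, y ≤ (s i).t.top := ⟨i, hy⟩
    simp only [C, dif_pos h1]
    rcases hs i h1.choose with e | e
    · exact (e.1.2 x y hy).symm
    · exact e.1.2 x y h1.choose_spec
  have hCd : ∀ x < d, C x d = H x := by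
    intro x hx
    have h1 : ¬ ∃ i, d ≤ (s i).t.top := fun ⟨i, e⟩ => absurd (hd i) (not_lt.2 e)
    simp only [C, dif_neg h1, hx, and_self, if_true]
  refine ⟨⟨d, C, ?_, ?_, ?_⟩, H, fun i => Node.lt_iff.2 ⟨⟨(hd i).le, fun x y hy =>
    (hC i x y hy).symm⟩, hd i⟩, hH, hlt, hCd⟩
  · intro x y h
    by_cases h1 : ∃ i, y ≤ (s i).t.top
    · obtain ⟨i, hi⟩ := h1
      rw [hC i x y hi]
      exact (s i).t.norm x y fun e => h ⟨e.1, (hi.trans_lt (hd i)).le⟩
    · have h2 : ¬ (x < y ∧ y = d) := fun e => h ⟨e.1, e.2.le⟩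
      simp only [C, dif_neg h1, if_neg h2]
  · intro x y z h1 h2 h3
    rcases h3.lt_or_eq with h3 | rfl
    · obtain ⟨i, hi⟩ := hlt z h3
      rw [hC i x y (h2.le.trans hi), hC i x z hi, hC i y z hi]
      exact (s i).t.sub x y z h1 h2 hi
    · obtain ⟨i, hi⟩ := hlt y h2
      rw [hC i x y hi, hCd x (h1.trans h2), hCd y h2, hH i x (h1.le.trans hi), hH i y hi]
      exact (s i).s1 x y h1 hi
  · intro z h3 b hb
    rcases h3.lt_or_eq with h3 | rfl
    · obtain ⟨i, hi⟩ := hlt z h3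
      exact ((s i).t.hom z hi b hb).congr subset_rfl
        (fun x y hy => hC i x y ((hy.trans hb).le.trans hi)) (fun x _ => hC i x z hi)
    · obtain ⟨i, hi⟩ := hlt b hb
      exact (s i).s2.congr (fun x hx => hx.le.trans hi) (fun x y hy => hC i x y (hy.le.trans hi))
        (fun x hx => (hCd x (hx.trans hb)).trans (hH i x (hx.le.trans hi)))

theorem extend (hκ : κ.IsRegular) {I : Type u} (s : I → St O κ) (hI : #I < κ) {v : Node O κ}
    {H : O → ℕ} (h1 : ∀ i, (s i).t < v) (h2 : ∀ i, ∀ x ≤ (s i).t.top, H x = (s i).h x)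
    (h3 : ∀ x < v.top, ∃ i, x ≤ (s i).t.top) {t : Node O κ} (ht : v ≤ t)
    (hR : Resp (Iio v.top) H t) :
    ∃ s' : St O κ, s'.t = t ∧ (∀ x < v.top, s'.h x = H x) ∧ ∀ i, (s i).Le s' := by
  classical
  choose! m hm using hR
  let h' : O → ℕ := fun x => if x < v.top then H x else max (t.c x t.top + 1) (m x)
  have e1 : ∀ x < v.top, h' x = H x := fun x hx => if_pos hx
  have e2 : ∀ x, ¬ x < v.top → h' x = max (t.c x t.top + 1) (m x) := fun x hx => if_neg hx
  have e3 : ∀ x y, ¬ x < v.top → x < y → y ≤ t.top → t.c x y < max (h' x) (h' y) := by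
    intro x y hx hxy hy
    have hy' : ¬ y < v.top := fun e => hx (hxy.trans e)
    rw [e2 x hx, e2 y hy']
    rcases hy.lt_or_eq with hy | rfl
    · have := t.sub x y t.top hxy hy le_rfl
      omega
    · omega
  have e4 : ∀ i x, ∀ y ≤ (s i).t.top, t.c x y = (s i).t.c x y :=
    fun i x y hy => (((h1 i).le.trans ht).2 x y hy).symm
  have e5 : ∀ i, ∀ x ≤ (s i).t.top, h' x = (s i).h x := fun i x hx =>
    (e1 x (hx.trans_lt (Node.lt_iff.1 (h1 i)).2)).trans (h2 i x hx)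
  refine ⟨⟨t, h', ?_, ?_⟩, rfl, e1, fun i => ⟨(h1 i).le.trans ht, e5 i⟩⟩
  · intro x y hxy hy
    by_cases hy' : y < v.top
    · obtain ⟨i, hi⟩ := h3 y hy'
      rw [e4 i x y hi, e5 i x (hxy.le.trans hi), e5 i y hi]
      exact (s i).s1 x y hxy hi
    · by_cases hx : x < v.top
      · have := hm y hy hy' x hx
        rw [e1 x hx, e2 y hy']
        omega
      · exact (e3 x y hx hxy hy).le
  · intro S hS n a1 a2
    have b1 : S ⊆ (⋃ i, S ∩ Iic (s i).t.top) ∪ (S ∩ Ici v.top) := by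
      intro x hx
      by_cases hx' : x < v.top
      · obtain ⟨i, hi⟩ := h3 x hx'
        exact Or.inl (mem_iUnion.2 ⟨i, hx, hi⟩)
      · exact Or.inr ⟨hx, not_lt.1 hx'⟩
    have b2 : (S ∩ Ici v.top).Subsingleton := by
      have b3 : ∀ x ∈ S ∩ Ici v.top, ∀ y ∈ S ∩ Ici v.top, ¬ x < y := by
        intro x hx y hy hxy
        have := e3 x y (not_lt.2 hx.2) hxy (hS hy.1)
        rw [a1 x hx.1 y hy.1 hxy, a2 x hx.1, a2 y hy.1] at this
        omega
      exact fun x hx y hy => le_antisymm (not_lt.1 (b3 y hy x hx)) (not_lt.1 (b3 x hx y hy))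
    refine (mk_le_mk_of_subset b1).trans_lt ((mk_union_le _ _).trans_lt
      (add_lt_of_lt hκ.aleph0_le ?_ ?_))
    · refine mk_iUnion_le_sum_mk.trans_lt (sum_lt_of_isRegular hκ hI fun i => ?_)
      refine (s i).s2 _ inter_subset_right n (fun x hx y hy e => ?_) (fun x hx => ?_)
      · rw [← e4 i x y hy.2]; exact a1 x hx.1 y hy.1 e
      · rw [← e5 i x hx.2]; exact a2 x hx.1
    · exact (mk_le_one_iff_set_subsingleton.2 b2).trans_lt (one_lt_aleph0.trans_le hκ.aleph0_le)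

theorem step [WellFoundedLT O] (hκ : κ.IsRegular) (hO1 : ∀ a : O, #(Iic a) ≤ κ) (hO2 : κ < #O)
    {V : Type*} (f : Node O κ → V) (hf : ∀ x y, x < y → f x ≠ f y) (j : V)
    {I : Type u} (s : I → St O κ) (hs : ∀ i j, (s i).Le (s j) ∨ (s j).Le (s i)) (hI : #I < κ) :
    ∃ s' : St O κ, (∀ i, (s i).Le s') ∧
      ∀ t, s'.t < t → Resp (Iic s'.t.top) s'.h t → f t ≠ j := by
  obtain ⟨v, H, h1, h2, h3, h4⟩ := chain hκ.aleph0_le hO1 hO2 s hs hI.le
  by_cases h : ∃ t, v ≤ t ∧ Resp (Iio v.top) H t ∧ f t = j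
  · obtain ⟨t, a1, a2, rfl⟩ := h
    obtain ⟨s', rfl, -, b⟩ := extend hκ s hI h1 h2 h3 a1 a2
    exact ⟨s', b, fun t ht _ => (hf _ _ ht).symm⟩
  · obtain ⟨s', rfl, b1, b2⟩ := extend hκ s hI h1 h2 h3 le_rfl (by
      intro y hy hy'
      obtain rfl : y = v.top := le_antisymm hy (not_lt.1 hy')
      exact ⟨0, fun x hx => by rw [h4 x hx]; exact le_max_left _ _⟩)
    refine ⟨s', b2, fun t ht hR e => h ⟨t, ht.le, fun y hy hy' => ?_, e⟩⟩
    rcases (not_lt.1 hy').lt_or_eq with hy' | rfl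
    · obtain ⟨m, hm⟩ := hR y hy (not_le.2 hy')
      exact ⟨m, fun x hx => by rw [← b1 x hx]; exact hm x (le_of_lt hx)⟩
    · refine ⟨0, fun x hx => ?_⟩
      rw [← ht.le.2 x _ le_rfl, h4 x hx]
      exact le_max_left _ _

theorem mk_Iio_lt' {c : Cardinal.{u}} (i : c.ord.ToType) : #(Set.Iio i) < c := by
  simpa using mk_Iio_lt i (by simp)

theorem not_special [WellFoundedLT O] (hκ : κ.IsRegular) (hO1 : ∀ a : O, #(Iic a) ≤ κ)
    (hO2 : κ < #O) (f : Node O κ → κ.ord.ToType) : ¬ ∀ x y, x < y → f x ≠ f y := by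
  classical
  intro hf
  obtain ⟨s0, -⟩ := step hκ hO1 hO2 f hf (f (chain hκ.aleph0_le hO1 hO2 (I := PEmpty) PEmpty.elim
    (fun i => i.elim) (by simp)).choose) (I := PEmpty) PEmpty.elim (fun i => i.elim)
    (by simpa using hκ.pos)
  let Q : κ.ord.ToType → St O κ → Prop := fun j s' =>
    ∀ t, s'.t < t → Resp (Iic s'.t.top) s'.h t → f t ≠ j
  let F : ∀ j : κ.ord.ToType, (∀ i, i < j → St O κ) → St O κ := fun j prev =>
    if h : ∃ s', (∀ i (hi : i < j), (prev i hi).Le s') ∧ Q j s' then h.choose else s0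
  let g : κ.ord.ToType → St O κ := wellFounded_lt.fix F
  have hg : ∀ j, g j = F j (fun i _ => g i) := fun j => wellFounded_lt.fix_eq F j
  have Le_refl : ∀ s : St O κ, s.Le s := fun s => ⟨le_rfl, fun _ _ => rfl⟩
  have key : ∀ j, (∀ i < j, (g i).Le (g j)) ∧ Q j (g j) := by
    intro j
    induction j using WellFoundedLT.induction with
    | _ j ih =>
    have h : ∃ s', (∀ i (_ : i < j), (g i).Le s') ∧ Q j s' := by
      obtain ⟨s', h1, h2⟩ := step hκ hO1 hO2 f hf j (fun i : Iio j => g i.1) (by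
        intro a b
        rcases lt_trichotomy a.1 b.1 with e | e | e
        · exact Or.inl ((ih b.1 b.2).1 _ e)
        · rw [e]; exact Or.inl (Le_refl _)
        · exact Or.inr ((ih a.1 a.2).1 _ e)) (mk_Iio_lt' j)
      exact ⟨s', fun i hi => h1 ⟨i, hi⟩, h2⟩
    rw [hg j]
    simp only [F, dif_pos h]
    exact h.choose_spec
  obtain ⟨v, H, h1, h2, h3, h4⟩ := chain hκ.aleph0_le hO1 hO2 g (by
    intro a b
    rcases lt_trichotomy a b with e | e | e
    · exact Or.inl ((key b).1 _ e)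
    · rw [e]; exact Or.inl (Le_refl _)
    · exact Or.inr ((key a).1 _ e)) (by simp)
  refine (key (f v)).2 v (h1 _) (fun y hy hy' => ?_) rfl
  have hy'' : (g (f v)).t.top < y := not_le.1 hy'
  rcases hy.lt_or_eq with hy | rfl
  · obtain ⟨i, hi⟩ := h3 y hy
    refine ⟨(g i).h y, fun x hx => ?_⟩
    have hxy : x < y := lt_of_le_of_lt hx hy''
    rw [← (h1 i).le.2 x y hi, ← h2 _ x hx, h2 i x (hxy.le.trans hi)]
    exact (g i).s1 x y hxy hi
  · refine ⟨0, fun x hx => ?_⟩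
    rw [h4 x (lt_of_le_of_lt hx hy''), h2 _ x hx]
    exact le_max_left _ _

/-- the ordinal of an element of `o.ToType` -/
noncomputable def el {o : Ordinal.{u}} (x : o.ToType) : Ordinal.{u} := (Ordinal.ToType.mk.symm x).1

theorem el_lt {o : Ordinal.{u}} (x : o.ToType) : el x < o := (Ordinal.ToType.mk.symm x).2

theorem el_lt_el {o : Ordinal.{u}} {x y : o.ToType} : el x < el y ↔ x < y :=
  Ordinal.ToType.mk.symm.lt_iff_lt

theorem no_chain {α : Ordinal.{u}} (hα : κ.ord + 2 ≤ α) (g : Iio α → Node O κ) (hg : StrictMono g)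
    (n : ℕ) : ¬ ∀ a b, a < b → (g b).c (g a).top (g b).top = n := by
  intro h
  have a1 : κ.ord < κ.ord + 1 := lt_add_one _
  have a2 : κ.ord + 1 < α := by
    refine lt_of_lt_of_le ?_ hα
    rw [show (2 : Ordinal.{u}) = 1 + 1 by norm_num, ← add_assoc]
    exact lt_add_one _
  let b : Iio α := ⟨κ.ord, a1.trans a2⟩
  let z : Iio α := ⟨κ.ord + 1, a2⟩
  let e : κ.ord.ToType → Iio α := fun i => ⟨el i, (el_lt i).trans (a1.trans a2)⟩
  have top_lt : ∀ x y : Iio α, x < y → (g x).top < (g y).top :=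
    fun x y hxy => (Node.lt_iff.1 (hg hxy)).2
  have he : StrictMono fun i => (g (e i)).top := fun i j hij => top_lt _ _ (el_lt_el.2 hij)
  have ez : ∀ i, e i < z := fun i => (el_lt i).trans a1
  have h1 := (g z).hom _ le_rfl _ (top_lt b z a1) (range fun i => (g (e i)).top)
    (by rintro _ ⟨i, rfl⟩; exact top_lt _ b (el_lt i)) n (by
      rintro _ ⟨i, rfl⟩ _ ⟨j, rfl⟩ hij
      rw [← (hg (ez j)).le.2 _ _ le_rfl]
      exact h _ _ (el_lt_el.2 (he.lt_iff_lt.1 hij))) (by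
      rintro _ ⟨i, rfl⟩
      exact h _ _ (ez i))
  rw [mk_range_eq _ he.injective, mk_ord_toType] at h1
  exact lt_irrefl _ h1

/-- For regular `κ` there is a tree that is not `l`-special for any `l ≤ κ` and fails the partition
relation for the goal `κ + 2` and countably many colours. -/
theorem main (hκ : κ.IsRegular) {l μ : Cardinal.{u}} (hl : l ≤ κ) (hμ : ℵ₀ ≤ μ) {α : Ordinal.{u}}
    (hα : κ.ord + 2 ≤ α) :
    ∃ (T : Type u) (_ : PartialOrder T), IsTree T ∧ ¬ Special T l ∧ ¬ Arrow T α μ := by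
  refine ⟨Node (Order.succ κ).ord.ToType κ, inferInstance, isTree, ?_, fun h => ?_⟩
  · rintro ⟨f, h1, h2⟩
    refine not_special hκ (fun a => ?_) (by simp)
      (fun t => Ordinal.ToType.mk ⟨f t, (h1 t).trans_le (ord_le_ord.2 hl)⟩) fun x y hxy e => ?_
    · rw [← Iio_insert]
      exact mk_insert_le.trans (add_le_of_le hκ.aleph0_le (Order.lt_succ_iff.1 (mk_Iio_lt' a))
        (one_le_aleph0.trans hκ.aleph0_le))
    · exact h2 x y hxy (congrArg Subtype.val (Ordinal.ToType.mk.injective e))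
  · obtain ⟨g, hg, i, hi⟩ := h (fun s t => (t.c s.top t.top : Ordinal.{u})) fun s t =>
      (Ordinal.natCast_lt_omega0 _).trans_le (by rw [← ord_aleph0]; exact ord_le_ord.2 hμ)
    have a0 : (0 : Ordinal.{u}) < 1 := zero_lt_one
    have a1 : (1 : Ordinal.{u}) < α :=
      lt_of_lt_of_le (one_lt_two.trans_le le_add_self) hα
    refine no_chain hα g hg ((g ⟨1, a1⟩).c (g ⟨0, a0.trans a1⟩).top (g ⟨1, a1⟩).top)
      fun a b hab => ?_
    exact Nat.cast_injective (R := Ordinal.{u}) ((hi a b hab).trans (hi _ _ a0).symm)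

end Pool.Agent.H774Z.Tree
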