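import Pool.Agent.H774Z.Tree.Main

/-! Weakly compact cardinals are regular. -/

set_option autoImplicit false

universe u

namespace Pool.Agent.H774Z.Tree

open Cardinal Set

theorem WeaklyCompact.regular {κ : Cardinal.{u}} (h : WeaklyCompact κ) : κ.IsRegular := by
  classical
  refine ⟨h.1.le, not_lt.1 fun hlt => ?_⟩
  obtain ⟨S, hS, hS'⟩ := Order.exists_cof_eq κ.ord.ToType
  rw [Ordinal.cof_toType] at hS'
  choose p hp hp' using hS
  obtain ⟨H, hH, i, hi⟩ := h.2 κ.ord.ToType (mk_ord_toType κ)
    (fun x y => if p x = p y then 0 else 1) (fun x y => by simp only [eq_comm])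
  by_cases h1 : ∃ x ∈ H, ∃ y ∈ H, x ≠ y ∧ p x = p y
  · obtain ⟨x, hx, y, hy, hxy, e⟩ := h1
    have h2 : i = 0 := by rw [← hi x hx y hy hxy, if_pos e]
    have h3 : H ⊆ insert (p x) (Iio (p x)) := by
      intro z hz
      rw [Iio_insert]
      by_cases e' : z = x
      · rw [e']; exact hp' x
      · have h4 := hi z hz x hx e'
        rw [h2] at h4
        have h5 : p z = p x := by
          by_contra h6
          rw [if_neg h6] at h4
          exact absurd h4 (by decide)
        rw [← h5]; exact hp' z
    have h4 := (mk_le_mk_of_subset h3).trans_lt (mk_insert_le.trans_lt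
      (add_lt_of_lt h.1.le (mk_Iio_lt' _) (one_lt_aleph0.trans h.1)))
    exact absurd hH h4.ne
  · have h2 : #H ≤ #S := mk_le_of_injective (f := fun x => ⟨p x.1, hp x.1⟩) fun x y e => by
      by_contra hne
      exact h1 ⟨x.1, x.2, y.1, y.2, fun e' => hne (Subtype.ext e'), congrArg Subtype.val e⟩
    rw [hH, hS'] at h2
    exact absurd h2 (not_le.2 hlt)

end Pool.Agent.H774Z.Tree
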